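import Pool.Agent.helper66.PX.Spec
import Pool.Agent.helper61.PN.Final

/-!
Row CQ of project PX.
-/

set_option autoImplicit false

namespace Pool.Agent.PX

universe u v w

section CQ_aux

variable {K : Type u} {A : Type v} [Field K] [NonUnitalRing A] [Module K A]
  [IsScalarTower K A A] [SMulCommClass K A A]

/-- the multiplication of the quotient. -/
def CQ_mul (T : Submodule K A) (hT : ∀ a : A, ∀ x ∈ T, a * x ∈ T ∧ x * a ∈ T) :
    A ⧸ T → A ⧸ T → A ⧸ T :=
  Quotient.map₂ (fun a b => a * b) (by
    intro a a' ha b b' hb
    have ha' : a - a' ∈ T := (Submodule.quotientRel_def T).mp ha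
    have hb' : b - b' ∈ T := (Submodule.quotientRel_def T).mp hb
    refine (Submodule.quotientRel_def T).mpr ?_
    have h : a * b - a' * b' = (a - a') * b + a' * (b - b') := by
      rw [sub_mul, mul_sub]; abel
    rw [h]
    exact T.add_mem ((hT b _ ha').2) ((hT a' _ hb').1))

/-- the quotient as a non unital ring. -/
@[reducible] def CQ_ring (T : Submodule K A) (hT : ∀ a : A, ∀ x ∈ T, a * x ∈ T ∧ x * a ∈ T) :
    NonUnitalRing (A ⧸ T) :=
  { (inferInstance : AddCommGroup (A ⧸ T)) with
    mul := CQ_mul T hT
    left_distrib := by
      intro a b c
      induction a using Submodule.Quotient.induction_on with | _ a => ?_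
      induction b using Submodule.Quotient.induction_on with | _ b => ?_
      induction c using Submodule.Quotient.induction_on with | _ c => ?_
      exact congrArg (Submodule.Quotient.mk (p := T)) (mul_add a b c)
    right_distrib := by
      intro a b c
      induction a using Submodule.Quotient.induction_on with | _ a => ?_
      induction b using Submodule.Quotient.induction_on with | _ b => ?_
      induction c using Submodule.Quotient.induction_on with | _ c => ?_
      exact congrArg (Submodule.Quotient.mk (p := T)) (add_mul a b c)
    zero_mul := by
      intro a
      induction a using Submodule.Quotient.induction_on with | _ a => ?_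
      exact congrArg (Submodule.Quotient.mk (p := T)) (zero_mul a)
    mul_zero := by
      intro a
      induction a using Submodule.Quotient.induction_on with | _ a => ?_
      exact congrArg (Submodule.Quotient.mk (p := T)) (mul_zero a)
    mul_assoc := by
      intro a b c
      induction a using Submodule.Quotient.induction_on with | _ a => ?_
      induction b using Submodule.Quotient.induction_on with | _ b => ?_
      induction c using Submodule.Quotient.induction_on with | _ c => ?_
      exact congrArg (Submodule.Quotient.mk (p := T)) (mul_assoc a b c) }

end CQ_aux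

theorem CQ : CQ_stmt.{u, v} := by
  intro K A _ _ _ _ _ _ hrank hprop T hT hTtop hcomm
  letI : NonUnitalRing (A ⧸ T) := CQ_ring T hT
  haveI h1 : IsScalarTower K (A ⧸ T) (A ⧸ T) := by
    refine ⟨fun r a b => ?_⟩
    induction a using Submodule.Quotient.induction_on with | _ a => ?_
    induction b using Submodule.Quotient.induction_on with | _ b => ?_
    exact congrArg (Submodule.Quotient.mk (p := T)) (smul_mul_assoc r a b)
  haveI h2 : SMulCommClass K (A ⧸ T) (A ⧸ T) := by
    refine ⟨fun r a b => ?_⟩
    induction a using Submodule.Quotient.induction_on with | _ a => ?_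
    induction b using Submodule.Quotient.induction_on with | _ b => ?_
    exact congrArg (Submodule.Quotient.mk (p := T)) (mul_smul_comm r a b).symm
  haveI h3 : Nontrivial (A ⧸ T) := Submodule.Quotient.nontrivial_iff.mpr hTtop
  have hc : ∀ x y : A ⧸ T, x * y = y * x := by
    intro a b
    induction a using Submodule.Quotient.induction_on with | _ a => ?_
    induction b using Submodule.Quotient.induction_on with | _ b => ?_
    exact (Submodule.Quotient.eq T).mpr (hcomm a b)
  let π : A →ₙₐ[K] (A ⧸ T) :=
    { toFun := Submodule.Quotient.mk
      map_smul' := fun r a => rfl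
      map_zero' := rfl
      map_add' := fun a b => rfl
      map_mul' := fun a b => rfl }
  have hπ : Function.Surjective π := Submodule.Quotient.mk_surjective T
  exact Pool.Agent.helper61.PN.main A hrank hprop (A ⧸ T) hc π hπ

end Pool.Agent.PX
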